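import Mathlib

/-!
# SN53/Local: no local obstruction

For `x ∈ {4, 6, 10, 15}` and every `n` the five numbers `2y-1, 2w-1, 2xy-1, 2xw-1, 2yw-1`, `w = n-x-y`, are coprime to
`primorial Z` for all `y` in one residue class.
-/

set_option autoImplicit false

namespace Pool.Agent.SN53

open Finset

/-- the five numbers -/
def five (x y w : ℕ) : Finset ℕ :=
  {2 * y - 1, 2 * w - 1, 2 * x * y - 1, 2 * x * w - 1, 2 * y * w - 1}

theorem loc3 : ∀ x ∈ ({4, 6, 10, 15} : Finset ℕ), ∀ n : ZMod 3, ∃ r : ZMod 3,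
    2 * r ≠ 1 ∧ 2 * (n - x - r) ≠ 1 ∧ 2 * x * r ≠ 1 ∧ 2 * x * (n - x - r) ≠ 1 ∧
      2 * r * (n - x - r) ≠ 1 := by
  decide

theorem loc5 : ∀ x ∈ ({4, 6, 10, 15} : Finset ℕ), ∀ n : ZMod 5, ∃ r : ZMod 5,
    2 * r ≠ 1 ∧ 2 * (n - x - r) ≠ 1 ∧ 2 * x * r ≠ 1 ∧ 2 * x * (n - x - r) ≠ 1 ∧
      2 * r * (n - x - r) ≠ 1 := by
  decide

theorem loc2 (x n : ZMod 2) : ∃ r : ZMod 2,
    2 * r ≠ 1 ∧ 2 * (n - x - r) ≠ 1 ∧ 2 * x * r ≠ 1 ∧ 2 * x * (n - x - r) ≠ 1 ∧
      2 * r * (n - x - r) ≠ 1 := by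
  revert x n
  decide

open Polynomial in
/-- a linear or quadratic polynomial argument for `p ≥ 7` -/
theorem loc7 {p : ℕ} (hp : p.Prime) (h7 : 7 ≤ p) {x : ℕ} (hx : ¬ p ∣ x) (n : ZMod p) :
    ∃ r : ZMod p, 2 * r ≠ 1 ∧ 2 * (n - x - r) ≠ 1 ∧ 2 * x * r ≠ 1 ∧ 2 * x * (n - x - r) ≠ 1 ∧
      2 * r * (n - x - r) ≠ 1 := by
  haveI : Fact p.Prime := ⟨hp⟩
  have hx0 : (x : ZMod p) ≠ 0 := by
    rw [Ne, ZMod.natCast_eq_zero_iff]
    exact hx
  have h20 : (2 : ZMod p) ≠ 0 := by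
    have : ((2 : ℕ) : ZMod p) ≠ 0 := by
      rw [Ne, ZMod.natCast_eq_zero_iff]
      intro h
      have := Nat.le_of_dvd (by norm_num) h
      omega
    simpa using this
  have hlin : ∀ a b : ZMod p, a ≠ 0 → (C a * X + C b : (ZMod p)[X]) ≠ 0 := by
    intro a b ha h
    have := congrArg (fun q => coeff q 1) h
    simp at this
    exact ha this
  have hlind : ∀ a b : ZMod p, (C a * X + C b : (ZMod p)[X]).natDegree ≤ 1 := fun a b =>
    natDegree_linear_le
  set c : ZMod p := n - x with hc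
  have hq : (C (-2 : ZMod p) * X ^ 2 + C (2 * c) * X + C (-1) : (ZMod p)[X]) ≠ 0 := by
    intro h
    have h3 := natDegree_quadratic (a := (-2 : ZMod p)) (b := 2 * c) (c := -1) (neg_ne_zero.2 h20)
    rw [h, natDegree_zero] at h3
    omega
  have hqd : (C (-2 : ZMod p) * X ^ 2 + C (2 * c) * X + C (-1) : (ZMod p)[X]).natDegree ≤ 2 :=
    natDegree_quadratic_le
  have h2x : (2 * (x : ZMod p)) ≠ 0 := mul_ne_zero h20 hx0
  have hn2 : (-2 : ZMod p) ≠ 0 := neg_ne_zero.2 h20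
  have hn2x : (-(2 * (x : ZMod p))) ≠ 0 := neg_ne_zero.2 h2x
  set Q : (ZMod p)[X] := (C 2 * X + C (-1)) * (C (-2) * X + C (2 * c - 1)) *
    (C (2 * (x : ZMod p)) * X + C (-1)) * (C (-(2 * (x : ZMod p))) * X + C (2 * x * c - 1)) *
    (C (-2 : ZMod p) * X ^ 2 + C (2 * c) * X + C (-1)) with hQ
  have hQ0 : Q ≠ 0 := by
    rw [hQ]
    exact mul_ne_zero (mul_ne_zero (mul_ne_zero (mul_ne_zero (hlin _ _ h20) (hlin _ _ hn2))
      (hlin _ _ h2x)) (hlin _ _ hn2x)) hq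
  have hQd : Q.natDegree ≤ 6 := by
    rw [hQ]
    refine natDegree_mul_le.trans ?_
    have h1 := natDegree_mul_le (p := (C 2 * X + C (-1) : (ZMod p)[X]) * (C (-2) * X + C (2 * c - 1)) *
      (C (2 * (x : ZMod p)) * X + C (-1))) (q := C (-(2 * (x : ZMod p))) * X + C (2 * x * c - 1))
    have h2 := natDegree_mul_le (p := (C 2 * X + C (-1) : (ZMod p)[X]) * (C (-2) * X + C (2 * c - 1)))
      (q := C (2 * (x : ZMod p)) * X + C (-1))
    have h3 := natDegree_mul_le (p := (C 2 * X + C (-1) : (ZMod p)[X]))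
      (q := C (-2) * X + C (2 * c - 1))
    have e1 := hlind 2 (-1)
    have e2 := hlind (-2) (2 * c - 1)
    have e3 := hlind (2 * (x : ZMod p)) (-1)
    have e4 := hlind (-(2 * (x : ZMod p))) (2 * x * c - 1)
    omega
  obtain ⟨r, hr⟩ := exists_eval_ne_zero_of_natDegree_lt_card Q hQ0 (by
    rw [Cardinal.mk_fintype, ZMod.card]
    exact_mod_cast (by omega : Q.natDegree < p))
  refine ⟨r, ?_⟩
  simp only [hQ, eval_mul, eval_add, eval_C, eval_X, eval_pow] at hr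
  refine ⟨fun h => hr ?_, fun h => hr ?_, fun h => hr ?_, fun h => hr ?_, fun h => hr ?_⟩
  · have : (2 * r + -1 : ZMod p) = 0 := by rw [h]; ring
    rw [this]; ring
  · have : (-2 * r + (2 * c - 1) : ZMod p) = 0 := by linear_combination h
    rw [this]; ring
  · have : (2 * (x : ZMod p) * r + -1 : ZMod p) = 0 := by rw [h]; ring
    rw [this]; ring
  · have : (-(2 * (x : ZMod p)) * r + (2 * x * c - 1) : ZMod p) = 0 := by linear_combination h
    rw [this]; ring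
  · have : (-2 * r ^ 2 + 2 * c * r + -1 : ZMod p) = 0 := by linear_combination h
    rw [this]; ring

theorem loc {x : ℕ} (hx : x ∈ ({4, 6, 10, 15} : Finset ℕ)) {p : ℕ} (hp : p.Prime) (n : ZMod p) :
    ∃ r : ZMod p, 2 * r ≠ 1 ∧ 2 * (n - x - r) ≠ 1 ∧ 2 * x * r ≠ 1 ∧ 2 * x * (n - x - r) ≠ 1 ∧
      2 * r * (n - x - r) ≠ 1 := by
  rcases Nat.lt_or_ge p 7 with h | h
  · have h2 := hp.two_le
    interval_cases p
    · exact loc2 x n
    · exact loc3 x hx n
    · exact absurd hp (by norm_num)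
    · exact loc5 x hx n
    · exact absurd hp (by norm_num)
  · refine loc7 hp h ?_ n
    intro hd
    have hx15 : x ≤ 15 ∧ 0 < x := by
      simp only [mem_insert, mem_singleton] at hx
      omega
    have hple := Nat.le_of_dvd hx15.2 hd
    have hp15 : p ≤ 15 := by omega
    simp only [mem_insert, mem_singleton] at hx
    interval_cases p <;> first | omega | (exact absurd hp (by norm_num))

theorem loc_nat {x : ℕ} (hx : x ∈ ({4, 6, 10, 15} : Finset ℕ)) {p : ℕ} (hp : p.Prime) (n : ℕ) :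
    ∃ r : ℕ, ∀ y w, y ≡ r [MOD p] → x + y + w = n → 1 ≤ y → 1 ≤ w →
      ∀ m ∈ five x y w, ¬ p ∣ m := by
  haveI : Fact p.Prime := ⟨hp⟩
  obtain ⟨r, h1, h2, h3, h4, h5⟩ := loc hx hp (n : ZMod p)
  refine ⟨r.val, fun y w hy hn hy1 hw1 m hm hd => ?_⟩
  have hyr : (y : ZMod p) = r := by
    have := (ZMod.natCast_eq_natCast_iff y r.val p).2 hy
    rw [this, ZMod.natCast_zmod_val]
  have hwr : (w : ZMod p) = (n : ZMod p) - x - r := by
    rw [← hn, ← hyr]
    push_cast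
    ring
  have hx1 : 1 ≤ x := by
    simp only [mem_insert, mem_singleton] at hx
    omega
  have key : ∀ t : ℕ, 1 ≤ t → p ∣ t - 1 → (t : ZMod p) = 1 := by
    intro t ht hd
    have := (ZMod.natCast_eq_zero_iff (t - 1) p).2 hd
    rw [Nat.cast_sub ht, Nat.cast_one] at this
    exact sub_eq_zero.1 this
  have hyw : 1 ≤ 2 * y * w := by nlinarith
  have hxy : 1 ≤ 2 * x * y := by nlinarith
  have hxw : 1 ≤ 2 * x * w := by nlinarith
  simp only [five, mem_insert, mem_singleton] at hm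
  rcases hm with rfl | rfl | rfl | rfl | rfl
  · have := key (2 * y) (by omega) hd
    push_cast at this
    rw [hyr] at this
    exact h1 this
  · have := key (2 * w) (by omega) hd
    push_cast at this
    rw [hwr] at this
    exact h2 this
  · have := key (2 * x * y) hxy hd
    push_cast at this
    rw [hyr] at this
    exact h3 this
  · have := key (2 * x * w) hxw hd
    push_cast at this
    rw [hwr] at this
    exact h4 this
  · have := key (2 * y * w) hyw hd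
    push_cast at this
    rw [hyr, hwr] at this
    exact h5 this

theorem loc_crt {x : ℕ} (hx : x ∈ ({4, 6, 10, 15} : Finset ℕ)) (n Z : ℕ) :
    ∃ r : ℕ, ∀ y w, y ≡ r [MOD primorial Z] → x + y + w = n → 1 ≤ y → 1 ≤ w →
      ∀ m ∈ five x y w, m.Coprime (primorial Z) := by
  classical
  have hall : ∀ p : ℕ, ∃ r : ℕ, p.Prime → ∀ y w, y ≡ r [MOD p] → x + y + w = n → 1 ≤ y → 1 ≤ w →
      ∀ m ∈ five x y w, ¬ p ∣ m := by
    intro p
    by_cases hp : p.Prime
    · obtain ⟨r, hr⟩ := loc_nat hx hp n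
      exact ⟨r, fun _ => hr⟩
    · exact ⟨0, fun h => absurd h hp⟩
  choose a ha using hall
  obtain ⟨n₀, hn₀⟩ : ∃ n₀ : ℕ, ∀ p ∈ (range (Z + 1)).filter Nat.Prime, n₀ ≡ a p [MOD p] := by
    have hco : Set.Pairwise (↑((range (Z + 1)).filter Nat.Prime) : Set ℕ)
        (Function.onFun Nat.Coprime (fun p : ℕ => p)) := by
      intro p hp q hq hpq
      have hp' := (mem_filter.1 (mem_coe.1 hp)).2
      have hq' := (mem_filter.1 (mem_coe.1 hq)).2
      exact (Nat.coprime_primes hp' hq').2 hpq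
    let w := Nat.chineseRemainderOfFinset a (fun p : ℕ => p)
      ((range (Z + 1)).filter Nat.Prime)
      (fun p hp => (mem_filter.1 hp).2.ne_zero) hco
    exact ⟨w.1, w.2⟩
  refine ⟨n₀, fun y w hy hn hy1 hw1 m hm => ?_⟩
  refine Nat.Coprime.symm (Nat.coprime_of_dvd fun p hp hpZ hpm => ?_)
  have hpZ' : p ≤ Z := (Nat.Prime.dvd_primorial_iff hp).1 hpZ
  have hmem : p ∈ (range (Z + 1)).filter Nat.Prime :=
    mem_filter.2 ⟨by simpa using by omega, hp⟩
  exact ha p hp y w ((hy.of_dvd hpZ).trans (hn₀ p hmem)) hn hy1 hw1 m hm hpm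

end Pool.Agent.SN53
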